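import Pool.Agent.H.MP_5f80dd_lc.L

open Pool.Agent.H.MP_5f80dd_lc

namespace Pool.Agent.Results.MP_5f80dd_lc.Main

theorem result (H : Type) [NormedAddCommGroup H] [InnerProductSpace ℂ H] [CompleteSpace H]
    (e : HilbertBasis ℕ ℂ H) (X : Type) [TopologicalSpace X] [PolishSpace X] [MeasurableSpace X]
    [BorelSpace X] (E : X → X → Prop) (hE : Equivalence E)
    (hA : MeasureTheory.AnalyticSet {q : X × X | E q.1 q.2}) :
    ∃ γ : X → ℕ → H →L[ℂ] H, @Measurable _ _ _ (@MeasurableSpace.pi ℕ _ fun _ => wot H) γ ∧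
      (∀ x, S.AF (S.Cs (γ x)) ∧ S.Simple (S.Cs (γ x)) ∧ S.Nuclear (S.Cs (γ x))) ∧
      ∀ x y, E x y ↔ S.Emb (S.Cs (γ x)) (S.Cs (γ y)) ∧ S.Emb (S.Cs (γ y)) (S.Cs (γ x)) := by
  obtain ⟨γ, a, b, c⟩ := main e X E hE.refl (fun _ _ _ => hE.trans) hA
  refine ⟨γ, a, fun x => ?_, fun x y => ?_⟩
  · obtain ⟨b1, b2, F, b3⟩ := b x
    rw [cs_eq]
    exact ⟨af_of b1, simple_of b2, b3 ▸ nuc2 e F⟩
  · rw [cs_eq, cs_eq, ← emb_iff, ← emb_iff, ← c, ← c]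
    exact ⟨fun h => ⟨h, hE.symm h⟩, fun h => h.1⟩

end Pool.Agent.Results.MP_5f80dd_lc.Main
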